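import Pool.Agent.Helper717.Hull2

set_option autoImplicit false

namespace Pool.Agent.Results.MP_49a3fa_co.Pentagon

open MeasureTheory Set Pool.Agent.Helper717.Hull1 Pool.Agent.Helper717.Hull2
open scoped ENNReal Pointwise EuclideanGeometry

/-- The Euclidean plane. -/
abbrev Plane := EuclideanSpace ℝ (Fin 2)

/-- A convex body: a compact convex set with nonempty interior. -/
def IsConvexBody (K : Set Plane) : Prop := IsCompact K ∧ Convex ℝ K ∧ (interior K).Nonempty

/-- A (nondegenerate) right triangle: the convex hull of three affinely independent points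
`A`, `B`, `C` with a right angle at `C`. -/
def IsRightTriangle (T : Set Plane) : Prop :=
  ∃ A B C : Plane, AffineIndependent ℝ ![A, B, C] ∧ ∠ A C B = Real.pi / 2 ∧
    T = convexHull ℝ {A, B, C}

/-! ### The data -/

/-- The small integer vertices of the pentagon. -/
def px : ℕ → ℤ
  | 0 => -21 | 1 => 2 | 2 => 4 | 3 => 4 | 4 => -19 | _ => -21

/-- The small integer vertices of the pentagon. -/
def py : ℕ → ℤ
  | 0 => -17 | 1 => -20 | 2 => -2 | 3 => 14 | 4 => 14 | _ => -17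

/-- An arc of directions starting at `(c, s)`, with the data of the points used on it. -/
structure Arc where
  c : ℤ
  s : ℤ
  j : ℕ
  k : ℤ
  w : ℕ
  z : ℕ

namespace Arc
variable (e : Arc)
def vx : ℤ := (16 - e.k) * px e.j + e.k * px (e.j + 1)
def vy : ℤ := (16 - e.k) * py e.j + e.k * py (e.j + 1)
def a1 : ℤ := e.vx - 16 * px e.w
def a2 : ℤ := e.vy - 16 * py e.w
def b1 : ℤ := e.vx - 16 * px e.z
def b2 : ℤ := e.vy - 16 * py e.z
def l1 (x y : ℤ) : ℤ := e.a1 * x + e.a2 * y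
def l2 (x y : ℤ) : ℤ := e.b2 * x - e.b1 * y

/-- Twice the area of the big pentagon. -/
def A2 : ℤ := 1533 * 256

def ok (c' s' : ℤ) : Bool :=
  decide (0 ≤ e.k) && decide (e.k ≤ 16) && decide (e.j ≤ 4) && decide (e.w ≤ 4) &&
  decide (e.z ≤ 4) && decide (0 ≤ e.l1 e.c e.s) && decide (0 ≤ e.l2 e.c e.s) &&
  decide (0 ≤ e.l1 c' s') && decide (0 ≤ e.l2 c' s') &&
  decide (0 < e.c * s' - e.s * c') &&
  decide (A2 * (e.c ^ 2 + e.s ^ 2) < 2 * (e.l1 e.c e.s * e.l2 e.c e.s)) &&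
  decide (A2 * (c' ^ 2 + s' ^ 2) < 2 * (e.l1 c' s' * e.l2 c' s')) &&
  decide (A2 * (e.c * c' + e.s * s') ≤ e.l1 e.c e.s * e.l2 c' s' + e.l1 c' s' * e.l2 e.c e.s)

end Arc

/-- Check a chain of arcs, the last one ending in the direction `(c', s')`. -/
def chk : List Arc → ℤ → ℤ → Bool
  | [], _, _ => true
  | [e], c', s' => e.ok c' s'
  | e :: f :: l, c', s' => e.ok f.c f.s && chk (f :: l) c' s'

/-- The arcs covering the upper half plane. -/
def up : List Arc :=
  [⟨1000, 0, 3, 1, 0, 1⟩, ⟨593, 805, 4, 0, 0, 1⟩, ⟨113, 994, 4, 0, 1, 2⟩, ⟨-93, 996, 4, 1, 1, 3⟩,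
   ⟨-579, 816, 4, 10, 1, 3⟩, ⟨-868, 496, 0, 0, 1, 3⟩, ⟨-996, 88, 0, 0, 2, 3⟩]

/-- The arcs covering the lower half plane. -/
def dn : List Arc :=
  [⟨-1000, 0, 0, 0, 3, 4⟩, ⟨-670, -742, 1, 0, 3, 4⟩, ⟨-45, -999, 1, 0, 3, 0⟩,
   ⟨75, -997, 1, 2, 4, 0⟩, ⟨470, -883, 1, 11, 4, 0⟩, ⟨633, -774, 2, 1, 4, 0⟩,
   ⟨786, -618, 2, 9, 4, 0⟩, ⟨912, -411, 3, 0, 4, 0⟩, ⟨994, -109, 3, 0, 4, 1⟩]

theorem chk_up : chk up (-1000) 0 = true := by decide +kernel

theorem chk_dn : chk dn 1000 0 = true := by decide +kernel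

/-- For the direction `(x, y)` there are suitable points. -/
def Good (x y : ℝ) : Prop :=
  ∃ e : Arc, 0 ≤ e.k ∧ e.k ≤ 16 ∧ e.j ≤ 4 ∧ e.w ≤ 4 ∧ e.z ≤ 4 ∧
    0 ≤ (e.a1 : ℝ) * x + e.a2 * y ∧ 0 ≤ (e.b2 : ℝ) * x - e.b1 * y ∧
    (Arc.A2 : ℝ) * (x ^ 2 + y ^ 2) < 2 * (((e.a1 : ℝ) * x + e.a2 * y) * ((e.b2 : ℝ) * x - e.b1 * y))

theorem good_of_ok (e : Arc) (c' s' : ℤ) (h : e.ok c' s' = true) (x y : ℝ)
    (hne : ¬ (x = 0 ∧ y = 0)) (h1 : 0 ≤ (e.c : ℝ) * y - e.s * x) (h2 : 0 ≤ x * (s' : ℝ) - y * c') :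
    Good x y := by
  simp only [Arc.ok, Bool.and_eq_true, decide_eq_true_eq] at h
  obtain ⟨⟨⟨⟨⟨⟨⟨⟨⟨⟨⟨⟨k0, k1⟩, j1⟩, w1⟩, z1⟩, p1⟩, p2⟩, p3⟩, p4⟩, hD⟩, q1⟩, q2⟩, q3⟩ := h
  refine ⟨e, k0, k1, j1, w1, z1, ?_⟩
  simp only [Arc.l1, Arc.l2] at p1 p2 p3 p4 q1 q2 q3
  generalize e.a1 = a1 at *
  generalize e.a2 = a2 at *
  generalize e.b1 = b1 at *
  generalize e.b2 = b2 at *
  generalize e.c = c at *
  generalize e.s = s at *
  have p1' : (0 : ℝ) ≤ a1 * c + a2 * s := by exact_mod_cast p1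
  have p2' : (0 : ℝ) ≤ b2 * c - b1 * s := by exact_mod_cast p2
  have p3' : (0 : ℝ) ≤ a1 * c' + a2 * s' := by exact_mod_cast p3
  have p4' : (0 : ℝ) ≤ b2 * c' - b1 * s' := by exact_mod_cast p4
  have hD' : (0 : ℝ) < c * s' - s * c' := by exact_mod_cast hD
  have q1' : (Arc.A2 : ℝ) * ((c : ℝ) ^ 2 + s ^ 2) < 2 * ((a1 * c + a2 * s) * (b2 * c - b1 * s)) := by
    exact_mod_cast q1
  have q2' : (Arc.A2 : ℝ) * ((c' : ℝ) ^ 2 + s' ^ 2) <
      2 * ((a1 * c' + a2 * s') * (b2 * c' - b1 * s')) := by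
    exact_mod_cast q2
  have q3' : (Arc.A2 : ℝ) * ((c : ℝ) * c' + s * s') ≤
      (a1 * c + a2 * s) * (b2 * c' - b1 * s') + (a1 * c' + a2 * s') * (b2 * c - b1 * s) := by
    exact_mod_cast q3
  set D : ℝ := c * s' - s * c' with hDd
  obtain ⟨m, hm⟩ : ∃ m : ℝ, m = (x * (s' : ℝ) - y * c') / D := ⟨_, rfl⟩
  obtain ⟨n, hn⟩ : ∃ n : ℝ, n = ((c : ℝ) * y - s * x) / D := ⟨_, rfl⟩
  have hm0 : 0 ≤ m := by rw [hm]; positivity
  have hn0 : 0 ≤ n := by rw [hn]; positivity
  have hx : x = m * c + n * c' := by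
    rw [hm, hn]; field_simp; rw [hDd]; ring
  have hy : y = m * s + n * s' := by
    rw [hm, hn]; field_simp; rw [hDd]; ring
  have hmn : 0 < m ∨ 0 < n := by
    by_contra hcon
    push Not at hcon
    have : m = 0 := le_antisymm hcon.1 hm0
    have h' : n = 0 := le_antisymm hcon.2 hn0
    apply hne
    rw [hx, hy, this, h']; simp
  rw [hx, hy]
  refine ⟨?_, ?_, ?_⟩
  · have : (a1 : ℝ) * (m * c + n * c') + a2 * (m * s + n * s') =
        m * (a1 * c + a2 * s) + n * (a1 * c' + a2 * s') := by ring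
    rw [this]; positivity
  · have : (b2 : ℝ) * (m * c + n * c') - b1 * (m * s + n * s') =
        m * (b2 * c - b1 * s) + n * (b2 * c' - b1 * s') := by ring
    rw [this]; positivity
  · have key : 2 * (((a1 : ℝ) * (m * c + n * c') + a2 * (m * s + n * s')) *
        ((b2 : ℝ) * (m * c + n * c') - b1 * (m * s + n * s'))) -
        (Arc.A2 : ℝ) * ((m * c + n * c') ^ 2 + (m * s + n * s') ^ 2) =
        m ^ 2 * (2 * ((a1 * c + a2 * s) * (b2 * c - b1 * s)) - (Arc.A2 : ℝ) * ((c : ℝ) ^ 2 + s ^ 2))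
        + n ^ 2 * (2 * ((a1 * c' + a2 * s') * (b2 * c' - b1 * s')) -
          (Arc.A2 : ℝ) * ((c' : ℝ) ^ 2 + s' ^ 2))
        + 2 * (m * n) * ((a1 * c + a2 * s) * (b2 * c' - b1 * s') +
          (a1 * c' + a2 * s') * (b2 * c - b1 * s) - (Arc.A2 : ℝ) * ((c : ℝ) * c' + s * s')) := by
      ring
    have t3 : 0 ≤ 2 * (m * n) * ((a1 * c + a2 * s) * (b2 * c' - b1 * s') +
          (a1 * c' + a2 * s') * (b2 * c - b1 * s) - (Arc.A2 : ℝ) * ((c : ℝ) * c' + s * s')) :=
      mul_nonneg (by positivity) (by linarith)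
    have u1 : 0 < 2 * ((a1 * c + a2 * s) * (b2 * c - b1 * s)) -
        (Arc.A2 : ℝ) * ((c : ℝ) ^ 2 + s ^ 2) := by linarith
    have u2 : 0 < 2 * ((a1 * c' + a2 * s') * (b2 * c' - b1 * s')) -
          (Arc.A2 : ℝ) * ((c' : ℝ) ^ 2 + s' ^ 2) := by linarith
    have t12 : 0 < m ^ 2 * (2 * ((a1 * c + a2 * s) * (b2 * c - b1 * s)) -
        (Arc.A2 : ℝ) * ((c : ℝ) ^ 2 + s ^ 2))
        + n ^ 2 * (2 * ((a1 * c' + a2 * s') * (b2 * c' - b1 * s')) -
          (Arc.A2 : ℝ) * ((c' : ℝ) ^ 2 + s' ^ 2)) := by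
      rcases hmn with h | h
      · exact add_pos_of_pos_of_nonneg (mul_pos (by positivity) u1) (mul_nonneg (by positivity) u2.le)
      · exact add_pos_of_nonneg_of_pos (mul_nonneg (by positivity) u1.le) (mul_pos (by positivity) u2)
    linarith

theorem good_of_chk : ∀ (l : List Arc) (c' s' : ℤ), chk l c' s' = true → ∀ (e : Arc) (l' : List Arc),
    l = e :: l' → ∀ x y : ℝ, ¬ (x = 0 ∧ y = 0) → 0 ≤ (e.c : ℝ) * y - e.s * x →
    0 ≤ x * (s' : ℝ) - y * c' → Good x y
  | [], _, _, _, e, l', h, _, _, _, _, _ => by simp at h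
  | [f], c', s', hc, e, l', h, x, y, hne, h1, h2 => by
      obtain ⟨rfl, -⟩ : f = e ∧ [] = l' := by simpa using h
      exact good_of_ok f c' s' hc x y hne h1 h2
  | f :: g :: l, c', s', hc, e, l', h, x, y, hne, h1, h2 => by
      obtain ⟨rfl, -⟩ : f = e ∧ g :: l = l' := by simpa using h
      simp only [chk, Bool.and_eq_true] at hc
      by_cases hg : 0 ≤ (g.c : ℝ) * y - g.s * x
      · exact good_of_chk (g :: l) c' s' hc.2 g l rfl x y hne hg h2
      · push Not at hg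
        exact good_of_ok f g.c g.s hc.1 x y hne h1 (by linarith)

theorem good (x y : ℝ) (hne : ¬ (x = 0 ∧ y = 0)) : Good x y := by
  rcases le_total 0 y with hy | hy
  · refine good_of_chk up (-1000) 0 chk_up _ _ rfl x y hne ?_ ?_
    · push_cast; linarith
    · push_cast; linarith
  · refine good_of_chk dn 1000 0 chk_dn _ _ rfl x y hne ?_ ?_
    · push_cast; linarith
    · push_cast; linarith

/-! ### The pentagon -/

/-- The `j`-th vertex of the big pentagon. -/
noncomputable def pt (j : ℕ) : Plane := !₂[16 * (px j : ℝ), 16 * (py j : ℝ)]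

@[simp] theorem pt0 (j : ℕ) : pt j 0 = 16 * (px j : ℝ) := by simp [pt]
@[simp] theorem pt1 (j : ℕ) : pt j 1 = 16 * (py j : ℝ) := by simp [pt]

/-- The big pentagon, of area `196224`. -/
noncomputable def K0 : Set Plane := convexHull ℝ {pt 0, pt 1, pt 2, pt 3, pt 4}

theorem pt_mem (j : ℕ) (hj : j ≤ 5) : pt j ∈ K0 := by
  have h5 : pt 5 = pt 0 := by simp [pt, px, py]
  apply subset_convexHull
  interval_cases j <;> simp [h5]

theorem K0_convex : Convex ℝ K0 := convex_convexHull ℝ _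

theorem K0_compact : IsCompact K0 :=
  (Set.toFinite ({pt 0, pt 1, pt 2, pt 3, pt 4} : Set Plane)).isCompact_convexHull (𝕜 := ℝ)

/-- The point `V` of an arc. -/
noncomputable def V (e : Arc) : Plane := !₂[(e.vx : ℝ), (e.vy : ℝ)]

theorem V_mem (e : Arc) (h0 : 0 ≤ e.k) (h1 : e.k ≤ 16) (hj : e.j ≤ 4) : V e ∈ K0 := by
  have hk0 : (0 : ℝ) ≤ e.k := by exact_mod_cast h0
  have hk1 : (e.k : ℝ) ≤ 16 := by exact_mod_cast h1
  have : V e = (1 - (e.k : ℝ) / 16) • pt e.j + ((e.k : ℝ) / 16) • pt (e.j + 1) := by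
    ext i
    fin_cases i
    · simp [V, Arc.vx]; ring
    · simp [V, Arc.vy]; ring
  rw [this]
  exact K0_convex (pt_mem _ (by omega)) (pt_mem _ (by omega)) (by linarith) (by linarith) (by ring)

/-- The main inequality: a triangle with vertices `C`, `C + d`, `C + t (-d₁, d₀)` containing
`r K0` has large area. -/
theorem main_ineq (r : ℝ) (hr : 0 < r) (C : Plane) (x y t : ℝ) (ht : 0 < t)
    (hne : ¬ (x = 0 ∧ y = 0)) (A B : Plane) (hA0 : A 0 = C 0 + x) (hA1 : A 1 = C 1 + y)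
    (hB0 : B 0 = C 0 - t * y) (hB1 : B 1 = C 1 + t * x)
    (hK : r • K0 ⊆ convexHull ℝ {A, B, C}) :
    2 * (Arc.A2 : ℝ) * r ^ 2 < t * (x ^ 2 + y ^ 2) := by
  have hN : 0 < x ^ 2 + y ^ 2 := by
    rcases not_and_or.1 hne with h | h
    · positivity
    · positivity
  have hor : orient A B C = t * (x ^ 2 + y ^ 2) := by
    unfold orient; rw [hA0, hA1, hB0, hB1]; ring
  have hpos : 0 < orient A B C := by rw [hor]; positivity
  have hmem : ∀ X ∈ K0, 0 ≤ (r * X 0 - C 0) * x + (r * X 1 - C 1) * y ∧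
      0 ≤ (r * X 1 - C 1) * x - (r * X 0 - C 0) * y ∧
      (r * X 1 - C 1) * x - (r * X 0 - C 0) * y +
        t * ((r * X 0 - C 0) * x + (r * X 1 - C 1) * y) ≤ t * (x ^ 2 + y ^ 2) := by
    intro X hX
    have h1 := hK (Set.smul_mem_smul_set hX)
    rw [tri_iff A B C _ hpos] at h1
    obtain ⟨h1, h2, h3⟩ := h1
    have e1 : orient B C (r • X) = t * ((r * X 0 - C 0) * x + (r * X 1 - C 1) * y) := by
      unfold orient
      simp only [PiLp.smul_apply, smul_eq_mul]
      rw [hB0, hB1]; ring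
    have e2 : orient C A (r • X) = (r * X 1 - C 1) * x - (r * X 0 - C 0) * y := by
      unfold orient
      simp only [PiLp.smul_apply, smul_eq_mul]
      rw [hA0, hA1]; ring
    have e3 := or_sum A B C (r • X)
    rw [e1, e2, hor] at e3
    rw [e1] at h2
    rw [e2] at h3
    refine ⟨?_, h3, by linarith⟩
    by_contra hcon
    push Not at hcon
    nlinarith
  obtain ⟨e, k0, k1, j1, w1, z1, g1, g2, g3⟩ := good x y hne
  obtain ⟨v1, v2, v3⟩ := hmem _ (V_mem e k0 k1 j1)
  obtain ⟨w1', -, -⟩ := hmem _ (pt_mem e.w (by omega))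
  obtain ⟨-, z2', -⟩ := hmem _ (pt_mem e.z (by omega))
  have V0 : V e 0 = e.vx := by simp [V]
  have V1 : V e 1 = e.vy := by simp [V]
  rw [V0, V1] at v1 v2 v3
  rw [pt0, pt1] at w1' z2'
  have ea1 : (e.a1 : ℝ) = e.vx - 16 * px e.w := by unfold Arc.a1; push_cast; ring
  have ea2 : (e.a2 : ℝ) = e.vy - 16 * py e.w := by unfold Arc.a2; push_cast; ring
  have eb1 : (e.b1 : ℝ) = e.vx - 16 * px e.z := by unfold Arc.b1; push_cast; ring
  have eb2 : (e.b2 : ℝ) = e.vy - 16 * py e.z := by unfold Arc.b2; push_cast; ring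
  set p1 : ℝ := (e.a1 : ℝ) * x + e.a2 * y with hp1
  set p2 : ℝ := (e.b2 : ℝ) * x - e.b1 * y with hp2
  have P1 : r * p1 ≤ (r * (e.vx : ℝ) - C 0) * x + (r * (e.vy : ℝ) - C 1) * y := by
    have : r * p1 = ((r * (e.vx : ℝ) - C 0) * x + (r * (e.vy : ℝ) - C 1) * y) -
      ((r * (16 * (px e.w : ℝ)) - C 0) * x + (r * (16 * (py e.w : ℝ)) - C 1) * y) := by
      rw [hp1, ea1, ea2]; ring
    linarith
  have P2 : r * p2 ≤ (r * (e.vy : ℝ) - C 1) * x - (r * (e.vx : ℝ) - C 0) * y := by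
    have : r * p2 = ((r * (e.vy : ℝ) - C 1) * x - (r * (e.vx : ℝ) - C 0) * y) -
      ((r * (16 * (py e.z : ℝ)) - C 1) * x - (r * (16 * (px e.z : ℝ)) - C 0) * y) := by
      rw [hp2, eb1, eb2]; ring
    linarith
  have hsum : r * p2 + t * (r * p1) ≤ t * (x ^ 2 + y ^ 2) := by
    have := mul_le_mul_of_nonneg_left P1 ht.le
    linarith
  have hsq : (r * p2 + t * (r * p1)) ^ 2 ≤ (t * (x ^ 2 + y ^ 2)) ^ 2 := by
    apply pow_le_pow_left₀ _ hsum
    positivity
  have ham : 4 * (r * p2) * (t * (r * p1)) ≤ (r * p2 + t * (r * p1)) ^ 2 := by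
    nlinarith [sq_nonneg (r * p2 - t * (r * p1))]
  have hlt : t * r ^ 2 * (2 * ((Arc.A2 : ℝ) * (x ^ 2 + y ^ 2))) <
      t * r ^ 2 * (2 * (2 * (p1 * p2))) := by
    apply mul_lt_mul_of_pos_left _ (by positivity)
    linarith
  have hfin : t * (x ^ 2 + y ^ 2) * (2 * (Arc.A2 : ℝ) * r ^ 2) <
      t * (x ^ 2 + y ^ 2) * (t * (x ^ 2 + y ^ 2)) := by
    calc t * (x ^ 2 + y ^ 2) * (2 * (Arc.A2 : ℝ) * r ^ 2)
        = t * r ^ 2 * (2 * ((Arc.A2 : ℝ) * (x ^ 2 + y ^ 2))) := by ring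
      _ < t * r ^ 2 * (2 * (2 * (p1 * p2))) := hlt
      _ = 4 * (r * p2) * (t * (r * p1)) := by ring
      _ ≤ (t * (x ^ 2 + y ^ 2)) ^ 2 := ham.trans hsq
      _ = t * (x ^ 2 + y ^ 2) * (t * (x ^ 2 + y ^ 2)) := by ring
  exact lt_of_mul_lt_mul_left hfin (by positivity)

/-! ### Areas -/

theorem K0_cover : K0 ⊆ convexHull ℝ {pt 0, pt 1, pt 2} ∪ (convexHull ℝ {pt 0, pt 2, pt 3} ∪
    convexHull ℝ {pt 0, pt 3, pt 4}) := by
  intro q hq
  have hside : ∀ i j : ℕ, (∀ k ≤ 4, 0 ≤ orient (pt i) (pt j) (pt k)) →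
      0 ≤ orient (pt i) (pt j) q := by
    intro i j h
    have : K0 ⊆ {q : Plane | 0 ≤ orient (pt i) (pt j) q} := by
      apply convexHull_min _ (half_convex _ _)
      intro p hp
      simp only [mem_insert_iff, mem_singleton_iff] at hp
      rcases hp with rfl | rfl | rfl | rfl | rfl
      · exact h 0 (by norm_num)
      · exact h 1 (by norm_num)
      · exact h 2 (by norm_num)
      · exact h 3 (by norm_num)
      · exact h 4 (by norm_num)
    exact this hq
  have h01 : 0 ≤ orient (pt 0) (pt 1) q := hside 0 1 (by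
    intro k hk; interval_cases k <;> simp only [orient, pt0, pt1, px, py] <;> norm_num)
  have h12 : 0 ≤ orient (pt 1) (pt 2) q := hside 1 2 (by
    intro k hk; interval_cases k <;> simp only [orient, pt0, pt1, px, py] <;> norm_num)
  have h23 : 0 ≤ orient (pt 2) (pt 3) q := hside 2 3 (by
    intro k hk; interval_cases k <;> simp only [orient, pt0, pt1, px, py] <;> norm_num)
  have h34 : 0 ≤ orient (pt 3) (pt 4) q := hside 3 4 (by
    intro k hk; interval_cases k <;> simp only [orient, pt0, pt1, px, py] <;> norm_num)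
  have h40 : 0 ≤ orient (pt 4) (pt 0) q := hside 4 0 (by
    intro k hk; interval_cases k <;> simp only [orient, pt0, pt1, px, py] <;> norm_num)
  have o012 : 0 < orient (pt 0) (pt 1) (pt 2) := by
    simp only [orient, pt0, pt1, px, py]; norm_num
  have o023 : 0 < orient (pt 0) (pt 2) (pt 3) := by
    simp only [orient, pt0, pt1, px, py]; norm_num
  have o034 : 0 < orient (pt 0) (pt 3) (pt 4) := by
    simp only [orient, pt0, pt1, px, py]; norm_num
  by_cases h02 : 0 ≤ orient (pt 0) (pt 2) q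
  · right
    by_cases h03 : 0 ≤ orient (pt 0) (pt 3) q
    · right
      exact (tri_iff _ _ _ _ o034).2 ⟨h03, h34, h40⟩
    · left
      push Not at h03
      refine (tri_iff _ _ _ _ o023).2 ⟨h02, h23, ?_⟩
      have := or_swap (pt 0) (pt 3) q
      linarith
  · left
    push Not at h02
    refine (tri_iff _ _ _ _ o012).2 ⟨h01, h12, ?_⟩
    have := or_swap (pt 0) (pt 2) q
    linarith

theorem K0_vol_le : volume K0 ≤ ENNReal.ofReal ((Arc.A2 : ℝ) / 2) := by
  have o012 : orient (pt 0) (pt 1) (pt 2) = 420 * 256 := by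
    simp only [orient, pt0, pt1, px, py]; norm_num
  have o023 : orient (pt 0) (pt 2) (pt 3) = 400 * 256 := by
    simp only [orient, pt0, pt1, px, py]; norm_num
  have o034 : orient (pt 0) (pt 3) (pt 4) = 713 * 256 := by
    simp only [orient, pt0, pt1, px, py]; norm_num
  refine (measure_mono K0_cover).trans ((measure_union_le _ _).trans
    ((add_le_add_right (measure_union_le _ _) _).trans ?_))
  rw [tri_vol_pos _ _ _ (by rw [o012]; norm_num), tri_vol_pos _ _ _ (by rw [o023]; norm_num),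
    tri_vol_pos _ _ _ (by rw [o034]; norm_num), o012, o023, o034,
    ← ENNReal.ofReal_add (by norm_num) (by norm_num),
    ← ENNReal.ofReal_add (by norm_num) (by norm_num)]
  apply ENNReal.ofReal_le_ofReal
  norm_num [Arc.A2]

theorem K0_interior : (interior K0).Nonempty := by
  have o013 : 0 < orient (pt 0) (pt 1) (pt 3) := by
    simp only [orient, pt0, pt1, px, py]; norm_num
  have hsub : convexHull ℝ {pt 0, pt 1, pt 3} ⊆ K0 :=
    convexHull_min (by
      intro p hp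
      simp only [mem_insert_iff, mem_singleton_iff] at hp
      rcases hp with rfl | rfl | rfl
      · exact pt_mem 0 (by norm_num)
      · exact pt_mem 1 (by norm_num)
      · exact pt_mem 3 (by norm_num)) K0_convex
  have hc : ∀ i j : ℕ, Continuous fun q : Plane => orient (pt i) (pt j) q := by
    intro i j
    unfold orient
    fun_prop
  have hopen : IsOpen {q : Plane | 0 < orient (pt 0) (pt 1) q ∧ 0 < orient (pt 1) (pt 3) q ∧
      0 < orient (pt 3) (pt 0) q} :=
    (isOpen_lt continuous_const (hc 0 1)).inter ((isOpen_lt continuous_const (hc 1 3)).inter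
      (isOpen_lt continuous_const (hc 3 0)))
  refine ⟨!₂[0, 0], interior_maximal ?_ hopen ?_⟩
  · rintro q ⟨h1, h2, h3⟩
    exact hsub ((tri_iff _ _ _ _ o013).2 ⟨h1.le, h2.le, h3.le⟩)
  · refine ⟨?_, ?_, ?_⟩ <;>
      simp only [orient, pt0, pt1, px, py] <;> norm_num

theorem K0_vol_pos : 0 < volume K0 :=
  lt_of_lt_of_le (isOpen_interior.measure_pos volume K0_interior) (measure_mono interior_subset)

/-- From a right triangle, in the two possible labellings of the legs, to coordinates. -/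
theorem right_triangle_area (r : ℝ) (hr : 0 < r) (T : Set Plane) (hT : IsRightTriangle T)
    (hK : r • K0 ⊆ T) : ENNReal.ofReal ((Arc.A2 : ℝ) * r ^ 2) < volume T := by
  obtain ⟨A, B, C, hind, hang, rfl⟩ := hT
  have hinj := hind.injective
  have hAC : A ≠ C := by
    intro h
    have := hinj (a₁ := 0) (a₂ := 2) (by simpa using h)
    exact absurd this (by decide)
  have hBC : B ≠ C := by
    intro h
    have := hinj (a₁ := 1) (a₂ := 2) (by simpa using h)
    exact absurd this (by decide)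
  have hin : (A 0 - C 0) * (B 0 - C 0) + (A 1 - C 1) * (B 1 - C 1) = 0 := by
    have h1 : inner ℝ (A -ᵥ C) (B -ᵥ C) = 0 :=
      InnerProductGeometry.inner_eq_zero_iff_angle_eq_pi_div_two _ _ |>.2 hang
    simp only [vsub_eq_sub, PiLp.inner_apply, PiLp.sub_apply, RCLike.inner_apply, conj_trivial,
      Fin.sum_univ_two] at h1
    linarith
  -- the general case, for a positive orientation
  have key : ∀ A B : Plane, A ≠ C → (A 0 - C 0) * (B 0 - C 0) + (A 1 - C 1) * (B 1 - C 1) = 0 →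
      0 < orient A B C → r • K0 ⊆ convexHull ℝ {A, B, C} →
      2 * (Arc.A2 : ℝ) * r ^ 2 < orient A B C := by
    intro A B hAC hin hor hK
    obtain ⟨x, hx⟩ : ∃ x, x = A 0 - C 0 := ⟨_, rfl⟩
    obtain ⟨y, hy⟩ : ∃ y, y = A 1 - C 1 := ⟨_, rfl⟩
    have hne : ¬ (x = 0 ∧ y = 0) := by
      rintro ⟨h1, h2⟩
      apply hAC
      ext i
      fin_cases i
      · simp only [Fin.zero_eta]; linarith
      · simp only [Fin.mk_one]; linarith
    have hN : 0 < x ^ 2 + y ^ 2 := by
      rcases not_and_or.1 hne with h | h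
      · positivity
      · positivity
    obtain ⟨t, ht⟩ : ∃ t, t = orient A B C / (x ^ 2 + y ^ 2) := ⟨_, rfl⟩
    have ht0 : 0 < t := by rw [ht]; positivity
    have hor' : orient A B C = x * (B 1 - C 1) - y * (B 0 - C 0) := by
      unfold orient; rw [hx, hy]; ring
    rw [← hx, ← hy] at hin
    have hB0 : B 0 = C 0 - t * y := by
      have : (B 0 - C 0) * (x ^ 2 + y ^ 2) = - (orient A B C) * y := by
        rw [hor']; linear_combination x * hin
      rw [ht]; field_simp; linarith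
    have hB1 : B 1 = C 1 + t * x := by
      have : (B 1 - C 1) * (x ^ 2 + y ^ 2) = (orient A B C) * x := by
        rw [hor']; linear_combination y * hin
      rw [ht]; field_simp; linarith
    have := main_ineq r hr C x y t ht0 hne A B (by linarith) (by linarith) hB0 hB1 hK
    have h2 : t * (x ^ 2 + y ^ 2) = orient A B C := by rw [ht]; field_simp
    linarith
  have hA : 0 < (Arc.A2 : ℝ) * r ^ 2 := by norm_num [Arc.A2]; positivity
  have hor0 : orient A B C ≠ 0 := by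
    intro h0
    have hor' : (A 0 - C 0) * (B 1 - C 1) - (A 1 - C 1) * (B 0 - C 0) = 0 := by
      rw [← h0]; unfold orient; ring
    apply hBC
    have hN : (A 0 - C 0) ^ 2 + (A 1 - C 1) ^ 2 ≠ 0 := by
      intro h
      apply hAC
      ext i
      fin_cases i
      · simp only [Fin.zero_eta]; nlinarith [sq_nonneg (A 0 - C 0), sq_nonneg (A 1 - C 1)]
      · simp only [Fin.mk_one]; nlinarith [sq_nonneg (A 0 - C 0), sq_nonneg (A 1 - C 1)]
    ext i
    fin_cases i
    · simp only [Fin.zero_eta]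
      have : (B 0 - C 0) * ((A 0 - C 0) ^ 2 + (A 1 - C 1) ^ 2) = 0 := by
        linear_combination (A 0 - C 0) * hin - (A 1 - C 1) * hor'
      rcases mul_eq_zero.1 this with h | h
      · linarith
      · exact absurd h hN
    · simp only [Fin.mk_one]
      have : (B 1 - C 1) * ((A 0 - C 0) ^ 2 + (A 1 - C 1) ^ 2) = 0 := by
        linear_combination (A 1 - C 1) * hin + (A 0 - C 0) * hor'
      rcases mul_eq_zero.1 this with h | h
      · linarith
      · exact absurd h hN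
  rw [tri_vol A B C hor0]
  rw [ENNReal.ofReal_lt_ofReal_iff (by positivity)]
  rcases lt_or_gt_of_ne hor0 with h | h
  · have hBA : 0 < orient B A C := by rw [or_swap]; linarith
    have hset : ({A, B, C} : Set Plane) = {B, A, C} := by
      ext q; simp only [mem_insert_iff, mem_singleton_iff]; tauto
    rw [hset] at hK
    have := key B A hBC (by linarith) hBA hK
    rw [or_swap] at this
    rw [abs_of_neg h]; linarith
  · have := key A B hAC hin h hK
    rw [abs_of_pos h]; linarith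

/-- There is a convex body of area `1` in the plane such that every right triangle containing it has
area strictly greater than `2`. -/
theorem result : ∃ K : Set Plane, IsConvexBody K ∧ volume K = 1 ∧
    ∀ T : Set Plane, IsRightTriangle T → K ⊆ T → 2 < volume T := by
  have hfin : volume K0 ≠ ⊤ := K0_compact.measure_lt_top.ne
  set v : ℝ := (volume K0).toReal with hv
  have hv0 : 0 < v := ENNReal.toReal_pos K0_vol_pos.ne' hfin
  have hvA : v ≤ (Arc.A2 : ℝ) / 2 := by
    rw [hv]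
    exact ENNReal.toReal_le_of_le_ofReal (by norm_num [Arc.A2]) K0_vol_le
  have hvE : volume K0 = ENNReal.ofReal v := (ENNReal.ofReal_toReal hfin).symm
  set r : ℝ := (Real.sqrt v)⁻¹ with hr
  have hs : 0 < Real.sqrt v := Real.sqrt_pos.2 hv0
  have hr0 : 0 < r := by positivity
  have hr2 : r ^ 2 * v = 1 := by
    rw [hr, inv_pow, Real.sq_sqrt hv0.le]; field_simp
  refine ⟨r • K0, ⟨K0_compact.smul r, K0_convex.smul r, ?_⟩, ?_, ?_⟩
  · rw [interior_smul₀ hr0.ne']
    exact K0_interior.smul_set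
  · rw [Measure.addHaar_smul, hvE, ← ENNReal.ofReal_mul (abs_nonneg _)]
    have : Module.finrank ℝ Plane = 2 := by simp [Plane]
    rw [this, abs_of_pos (by positivity), hr2, ENNReal.ofReal_one]
  · intro T hT hK
    refine lt_of_le_of_lt ?_ (right_triangle_area r hr0 T hT hK)
    rw [show (2 : ℝ≥0∞) = ENNReal.ofReal 2 by simp]
    apply ENNReal.ofReal_le_ofReal
    nlinarith [sq_nonneg r]

end Pool.Agent.Results.MP_49a3fa_co.Pentagon
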